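import Mathlib

namespace Pool.Agent.Results.MP_e7dccd_co.Family

open Finset

lemma tr {n : ℕ} (F : (Fin n → ZMod 3) → ℕ) (e : Fin n → ZMod 3) : ∑ x, F (x + e) = ∑ x, F x :=
  Equiv.sum_comp (Equiv.addRight e) F

lemma three {n : ℕ} (x e : Fin n → ZMod 3) : x + e + e + e = x := by
  funext j
  have : ∀ a b : ZMod 3, a + b + b + b = a := by decide
  exact this _ _

lemma hd {n : ℕ} (x : Fin n → ZMod 3) (i : Fin n) (c : ZMod 3) (hc : c ≠ 0) :
    hammingDist x (x + Pi.single i c) = 1 := by
  refine card_eq_one.2 ⟨i, ?_⟩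
  ext j
  by_cases h : j = i
  · subst h; simp [hc]
  · simp [h]

lemma z1 : ∀ b c : Bool,
    (if b then (1 : ZMod 3) else 1 + 1) = (if c then (1 : ZMod 3) else 1 + 1) → b = c := by decide

lemma z2 : ∀ b : Bool, (if b then (1 : ZMod 3) else 1 + 1) ≠ 0 := by decide

lemma dir {n : ℕ} (χ : (Fin n → ZMod 3) → ℕ) (h1 : ∀ x, χ x ≤ 1) (e : Fin n → ZMod 3) :
    12 * ∑ x, χ x ≤ 3 * ∑ x, χ x * (χ (x + e) + χ (x + e + e)) + 6 * 3 ^ n := by
  have a1 := tr χ e
  have a2 := tr (fun x => χ (x + e)) e
  have b1 := tr (fun x => χ x * (χ (x + e) + χ (x + e + e))) e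
  have b2 := tr (fun x => χ (x + e) * (χ (x + e + e) + χ (x + e + e + e))) e
  simp only [three] at b1 b2
  have key : ∑ x, (4 * χ x + 4 * χ (x + e) + 4 * χ (x + e + e)) ≤
      ∑ x, (χ x * (χ (x + e) + χ (x + e + e)) + χ (x + e) * (χ (x + e + e) + χ x)
        + χ (x + e + e) * (χ x + χ (x + e)) + 6) := by
    refine sum_le_sum fun x _ => ?_
    have := h1 x
    have := h1 (x + e)
    have := h1 (x + e + e)
    generalize χ x = a at *
    generalize χ (x + e) = b at *
    generalize χ (x + e + e) = c at *
    interval_cases a <;> interval_cases b <;> interval_cases c <;> norm_num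
  simp only [sum_add_distrib, ← mul_sum, sum_const, card_univ, Fintype.card_pi, ZMod.card,
    prod_const, Fintype.card_fin, smul_eq_mul] at key
  omega

lemma upper (n d : ℕ) (U : Finset (Fin n → ZMod 3))
    (hU : ∀ x ∈ U, (U.filter fun y => hammingDist x y = 1).card ≤ d) :
    4 * n * U.card ≤ d * U.card + 2 * n * 3 ^ n := by
  let χ : (Fin n → ZMod 3) → ℕ := fun x => if x ∈ U then 1 else 0
  have h1 : ∀ x, χ x ≤ 1 := fun x => by simp only [χ]; split_ifs <;> omega
  have hc : ∑ x, χ x = U.card := by simp [χ]
  have loc : ∀ x, ∑ i : Fin n, χ x * (χ (x + Pi.single i 1)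
      + χ (x + Pi.single i 1 + Pi.single i 1)) ≤ d * χ x := by
    intro x
    by_cases hx : x ∈ U
    · have e1 : χ x = 1 := if_pos hx
      have h2 := card_le_card_of_injOn
        (s := univ.filter fun p : Fin n × Bool =>
          x + Pi.single p.1 (if p.2 then (1 : ZMod 3) else 1 + 1) ∈ U)
        (t := U.filter fun y => hammingDist x y = 1)
        (fun p => x + Pi.single p.1 (if p.2 then (1 : ZMod 3) else 1 + 1))
        (fun p hp => mem_coe.2 (mem_filter.2 ⟨(mem_filter.1 (mem_coe.1 hp)).2,
          hd _ _ _ (by cases p.2 <;> decide)⟩))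
        (by
          rintro ⟨i, b⟩ - ⟨j, c⟩ - e
          have e2 := congrFun (add_left_cancel e) i
          by_cases hij : i = j
          · subst hij
            simp only [Pi.single_eq_same] at e2
            have : b = c := z1 b c e2
            rw [this]
          · simp only [Pi.single_eq_same, Pi.single_eq_of_ne hij] at e2
            exact absurd e2 (z2 b))
      rw [card_filter, Fintype.sum_prod_type] at h2
      simp only [Fintype.sum_bool, if_true, Bool.false_eq_true, if_false, Pi.single_add,
        ← add_assoc] at h2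
      have h3 := hU x hx
      simp only [e1, one_mul, mul_one]
      exact h2.trans h3
    · have e1 : χ x = 0 := if_neg hx
      simp [e1]
  have tot := sum_le_sum fun x (_ : x ∈ univ) => loc x
  rw [sum_comm, ← mul_sum, hc] at tot
  have per := sum_le_sum fun (i : Fin n) (_ : i ∈ univ) => dir χ h1 (Pi.single i 1)
  rw [sum_add_distrib, ← mul_sum, ← mul_sum, hc] at per
  simp only [sum_const, card_univ, Fintype.card_fin, smul_eq_mul] at per
  nlinarith

lemma reps (r : ℕ) : ∃ R : Finset (Fin r → ZMod 3), 2 * R.card + 1 = 3 ^ r ∧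
    ∀ s, s ≠ 0 → s ∈ R ∨ -s ∈ R := by
  let e := Fintype.equivFin (Fin r → ZMod 3)
  have ne : ∀ s : Fin r → ZMod 3, s ≠ 0 → e s ≠ e (-s) := by
    intro s hs h
    apply hs
    funext j
    have h1 := congrFun (e.injective h) j
    have : ∀ a : ZMod 3, a = -a → a = 0 := by decide
    exact this _ h1
  refine ⟨univ.filter fun s => e s < e (-s), ?_, fun s hs => ?_⟩
  · let χ : (Fin r → ZMod 3) → ℕ := fun s => if e s < e (-s) then 1 else 0
    have a1 : ∑ s, χ (-s) = ∑ s, χ s := Equiv.sum_comp (Equiv.neg _) χ
    have a2 : ∑ s, (χ s + χ (-s) + if s = 0 then 1 else 0) = ∑ _s : Fin r → ZMod 3, 1 := by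
      refine sum_congr rfl fun s _ => ?_
      simp only [χ, neg_neg]
      by_cases hs : s = 0
      · subst hs; simp
      · have := ne s hs
        rw [if_neg hs]
        split_ifs <;> omega
    simp only [sum_add_distrib, sum_ite_eq', mem_univ, if_true, sum_const, card_univ,
      Fintype.card_pi, ZMod.card, prod_const, Fintype.card_fin, smul_eq_mul] at a2
    have a3 : (univ.filter fun s => e s < e (-s)).card = ∑ s, χ s := card_filter _ _
    omega
  · have := ne s hs
    simp only [mem_filter, mem_univ, true_and, neg_neg]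
    omega

theorem result (r t n : ℕ) (hr : 1 ≤ r) (ht : 1 ≤ t) (hn : 2 * n = t * (3 ^ r - 1)) :
    IsGreatest {k : ℕ | ∃ U : Finset (Fin n → ZMod 3),
      (∀ x ∈ U, (U.filter fun y => hammingDist x y = 1).card ≤ 2 * n - t) ∧ U.card = k}
      (3 ^ n - 3 ^ (n - r)) := by
  obtain ⟨R, hR, hrep⟩ := reps r
  have hnR : n = R.card * t := by
    rw [← hR, Nat.add_sub_cancel] at hn
    nlinarith
  have hrn : r ≤ n := by
    have h1 : ∀ r : ℕ, 2 * r + 1 ≤ 3 ^ r := by
      intro r
      induction r with
      | zero => simp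
      | succ r ih => rw [pow_succ]; omega
    have := h1 r
    have h2 : r ≤ R.card := by omega
    nlinarith
  obtain ⟨q, hq⟩ := Nat.exists_eq_add_of_le hrn
  have hp : 3 ^ n = 3 ^ r * 3 ^ (n - r) := by rw [← pow_add]; congr 1; omega
  constructor
  · let E : Fin n ≃ R × Fin t := (Fintype.equivFinOfCardEq (by simp [hnR])).symm
    let S : (Fin n → ZMod 3) →+ (Fin r → ZMod 3) :=
      { toFun := fun x => ∑ i, x i • (E i).1.1
        map_zero' := by simp
        map_add' := fun x y => by simp [add_smul, sum_add_distrib] }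
    have S1 : ∀ i c, S (Pi.single i c) = c • (E i).1.1 := by
      intro i c
      show ∑ j, (Pi.single i c : Fin n → ZMod 3) j • (E j).1.1 = _
      rw [sum_eq_single i (fun j _ hj => by simp [hj]) (by simp)]
      simp
    have kill : ∀ s : Fin r → ZMod 3, s ≠ 0 → ∃ (ρ : R) (b : Bool),
        s + (if b then (1 : ZMod 3) else 1 + 1) • ρ.1 = 0 := by
      intro s hs
      rcases hrep s hs with h | h
      · refine ⟨⟨s, h⟩, false, funext fun j => ?_⟩
        have : ∀ a : ZMod 3, a + (1 + 1) * a = 0 := by decide
        exact this _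
      · exact ⟨⟨-s, h⟩, true, by simp⟩
    refine ⟨univ.filter fun x => S x ≠ 0, fun x hx => ?_, ?_⟩
    · have hx' := (mem_filter.1 hx).2
      let g : Fin n × Bool → (Fin n → ZMod 3) := fun p =>
        x + Pi.single p.1 (if p.2 then (1 : ZMod 3) else 1 + 1)
      have sub : ((univ.filter fun x => S x ≠ 0).filter fun y => hammingDist x y = 1) ⊆
          (univ.filter fun p => ¬S (g p) = 0).image g := by
        intro y hy
        have hy' := mem_filter.1 hy
        obtain ⟨i, hi⟩ := card_eq_one.1 hy'.2
        have h1 : ∀ j, x j ≠ y j ↔ j = i := by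
          intro j
          have := congrArg (j ∈ ·) hi
          simpa using this
        have d : ∀ a b : ZMod 3, a ≠ b → ∃ c : Bool, b = a + if c then 1 else 1 + 1 := by decide
        obtain ⟨c, hc⟩ := d _ _ ((h1 i).2 rfl)
        have e : g (i, c) = y := by
          funext j
          by_cases h : j = i
          · subst h; simp only [g, Pi.add_apply, Pi.single_eq_same]; exact hc.symm
          · have h2 : x j = y j := by
              by_contra hh; exact h ((h1 j).1 hh)
            simp [g, h, h2]
        exact mem_image.2 ⟨(i, c), mem_filter.2 ⟨mem_univ _, by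
          rw [e]; exact (mem_filter.1 hy'.1).2⟩, e⟩
      have c1 := (card_le_card sub).trans card_image_le
      have c2 := card_filter_add_card_filter_not (s := (univ : Finset (Fin n × Bool)))
        (fun p => S (g p) = 0)
      obtain ⟨ρ, b, hb⟩ := kill _ hx'
      have c3 := card_le_card_of_injOn (s := (univ : Finset (Fin t)))
        (t := univ.filter fun p : Fin n × Bool => S (g p) = 0) (fun k => (E.symm (ρ, k), b))
        (fun k _ => mem_coe.2 (mem_filter.2 ⟨mem_univ _, by
          simp only [g, map_add, S1, Equiv.apply_symm_apply]; exact hb⟩))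
        (fun k _ l _ e => by
          have := E.symm.injective (Prod.mk.inj e).1
          exact (Prod.mk.inj this).2)
      simp only [card_univ, Fintype.card_prod, Fintype.card_fin, Fintype.card_bool] at c2 c3
      omega
    · have sur : Function.Surjective S := by
        intro s
        by_cases hs : s = 0
        · exact ⟨0, by rw [hs, map_zero]⟩
        · obtain ⟨ρ, b, hb⟩ := kill (-s) (neg_ne_zero.2 hs)
          refine ⟨Pi.single (E.symm (ρ, ⟨0, ht⟩)) (if b then (1 : ZMod 3) else 1 + 1), ?_⟩
          rw [S1, Equiv.apply_symm_apply]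
          exact (neg_add_eq_zero.1 hb).symm
      have c1 := card_eq_sum_card_fiberwise (f := S) (s := univ) (t := univ)
        (fun _ _ => mem_coe.2 (mem_univ _))
      have c2 : ∀ s, (univ.filter fun x => S x = s).card = (univ.filter fun x => S x = 0).card := by
        intro s
        obtain ⟨y, rfl⟩ := sur s
        rw [card_filter, card_filter, ← tr _ y]
        simp
      have c3 := card_filter_add_card_filter_not (s := (univ : Finset (Fin n → ZMod 3)))
        (fun x => S x = 0)
      simp only [c2, sum_const, card_univ, Fintype.card_pi, ZMod.card, prod_const,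
        Fintype.card_fin, smul_eq_mul] at c1 c3
      have c4 : (univ.filter fun x => S x = 0).card = 3 ^ (n - r) :=
        Nat.eq_of_mul_eq_mul_left (by positivity : 0 < 3 ^ r) (by rw [← c1, hp])
      have c5 : (univ.filter fun x => S x ≠ 0).card = (univ.filter fun x => ¬S x = 0).card := rfl
      omega
  · rintro k ⟨U, hU, rfl⟩
    rcases Nat.eq_zero_or_pos R.card with h0 | h0
    · have hn0 : n = 0 := by rw [hnR, h0, zero_mul]
      subst hn0
      exact absurd hr (by omega)
    have h1 := upper n _ U hU
    obtain ⟨d, hd⟩ : ∃ d, 2 * n = d + t := ⟨2 * n - t, by nlinarith [Nat.sub_add_cancel (show t ≤ 2 * n by nlinarith)]⟩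
    rw [hd, Nat.add_sub_cancel] at h1
    have h2 : t * (3 ^ r * (U.card + 3 ^ (n - r))) ≤ t * (3 ^ r * 3 ^ n) := by
      have e1 : t * 3 ^ r = 2 * n + t := by rw [← hR, hnR]; ring
      have e2 : t * (3 ^ r * (U.card + 3 ^ (n - r))) = (2 * n + t) * U.card + t * 3 ^ n := by
        rw [← e1, hp]; ring
      have e3 : t * (3 ^ r * 3 ^ n) = (2 * n + t) * 3 ^ n := by rw [← e1]; ring
      rw [e2, e3]
      have e4 : 4 * n = 2 * (d + t) := by omega
      rw [e4] at h1
      rw [hd]
      nlinarith
    have h3 := Nat.le_of_mul_le_mul_left (Nat.le_of_mul_le_mul_left h2 ht) (by positivity)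
    omega

end Pool.Agent.Results.MP_e7dccd_co.Family
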